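import Pool.Agent.Helper386.FF.Loc9

/-! Field lemmas for the transfer. -/

set_option autoImplicit false
set_option linter.all false
set_option linter.overlappingInstances false

open Module FF

namespace FFT

section
variable {R M : Type*} [Field R] [Field M] [Algebra R M]

/-- elements of `L(w)`, `w^3 ∈ R` -/
theorem decomp (L : IntermediateField R M) (w : M) (y : R) (hw : w ^ 3 = algebraMap R M y) (f : M)
    (hf : f ∈ IntermediateField.adjoin R ((L : Set M) ∪ {w})) :
    ∃ A B C : M, A ∈ L ∧ B ∈ L ∧ C ∈ L ∧ f = A + B * w + C * w ^ 2 := by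
  have h1 : (IntermediateField.adjoin L {w}).restrictScalars R =
      IntermediateField.adjoin R ((L : Set M) ∪ {w}) := by
    have := IntermediateField.restrictScalars_adjoin R L ({w} : Set M)
    exact this
  have hf1 : f ∈ IntermediateField.adjoin L {w} := by
    have h2 : f ∈ (IntermediateField.adjoin L {w}).restrictScalars R := by rw [h1]; exact hf
    exact h2
  have hint : IsIntegral L w := by
    have h3 : IsIntegral L (w ^ 3) := by
      rw [hw, IsScalarTower.algebraMap_apply R L M]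
      exact isIntegral_algebraMap
    exact IsIntegral.of_pow (by norm_num) h3
  have hf2 : f ∈ (IntermediateField.adjoin L {w}).toSubalgebra := hf1
  rw [IntermediateField.adjoin_simple_toSubalgebra_of_isAlgebraic hint.isAlgebraic,
    Algebra.adjoin_singleton_eq_range_aeval] at hf2
  obtain ⟨p, hp⟩ := hf2
  have hp' : Polynomial.aeval w p = f := hp
  let q : Polynomial L := Polynomial.X ^ 3 - Polynomial.C (algebraMap R L y)
  have hq : q.Monic := Polynomial.monic_X_pow_sub_C _ (by norm_num)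
  have hqd : q.natDegree = 3 := Polynomial.natDegree_X_pow_sub_C
  have hqw : Polynomial.aeval w q = 0 := by
    simp only [q, map_sub, map_pow, Polynomial.aeval_X, Polynomial.aeval_C]
    rw [← IsScalarTower.algebraMap_apply, hw, sub_self]
  have h4 : Polynomial.aeval w (p %ₘ q) = f := by
    rw [← hp']
    conv_rhs => rw [← Polynomial.modByMonic_add_div p q]
    rw [map_add, map_mul, hqw, zero_mul, add_zero]
  have h5 : (p %ₘ q).natDegree < 3 := by
    rw [← hqd]
    apply Polynomial.natDegree_modByMonic_lt _ hq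
    intro h
    rw [h, Polynomial.natDegree_one] at hqd
    omega
  rw [Polynomial.aeval_eq_sum_range' h5] at h4
  simp only [Finset.sum_range_succ, Finset.sum_range_zero, zero_add, pow_zero, pow_one] at h4
  refine ⟨(p %ₘ q).coeff 0, (p %ₘ q).coeff 1, (p %ₘ q).coeff 2, SetLike.coe_mem _, SetLike.coe_mem _,
    SetLike.coe_mem _, ?_⟩
  rw [← h4]
  simp only [Algebra.smul_def, mul_one]
  rfl

theorem decomp_fixed (L : IntermediateField R M) (w : M) (y : R) (hw : w ^ 3 = algebraMap R M y)
    (ζ : R) (hζ : IsPrimitiveRoot ζ 3) [CharZero R] (θ : M →ₐ[R] M) (hθ : ∀ f ∈ L, θ f = f)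
    (hθw : θ w = algebraMap R M ζ * w) (f : M)
    (hf : f ∈ IntermediateField.adjoin R ((L : Set M) ∪ {w})) :
    ∃ A B C : M, A ∈ L ∧ B ∈ L ∧ C ∈ L ∧ f = A + B * w + C * w ^ 2 ∧
      3 * A = f + θ f + θ (θ f) ∧
      3 * (B * w) = f + algebraMap R M ζ ^ 2 * θ f + algebraMap R M ζ * θ (θ f) ∧
      3 * (C * w ^ 2) = f + algebraMap R M ζ * θ f + algebraMap R M ζ ^ 2 * θ (θ f) := by
  obtain ⟨A, B, C, hA, hB, hC, rfl⟩ := decomp L w y hw f hf
  refine ⟨A, B, C, hA, hB, hC, rfl, ?_⟩
  have hZ : IsPrimitiveRoot (algebraMap R M ζ) 3 := hζ.map_of_injective (algebraMap R M).injective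
  set Z := algebraMap R M ζ with hZd
  have hZ3 : Z ^ 3 = 1 := hZ.pow_eq_one
  have hZs : 1 + Z + Z ^ 2 = 0 := by
    have h1 := hZ.geom_sum_eq_zero (by norm_num)
    simpa [Finset.sum_range_succ] using h1
  have hθZ : θ Z = Z := by rw [hZd, AlgHom.commutes]
  have e1 : θ (A + B * w + C * w ^ 2) = A + B * (Z * w) + C * (Z * w) ^ 2 := by
    simp only [map_add, map_mul, map_pow, hθ A hA, hθ B hB, hθ C hC, hθw]
  have e2 : θ (θ (A + B * w + C * w ^ 2)) = A + B * (Z * (Z * w)) + C * (Z * (Z * w)) ^ 2 := by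
    rw [e1]
    simp only [map_add, map_mul, map_pow, hθ A hA, hθ B hB, hθ C hC, hθw, hθZ]
  rw [e2, e1]
  refine ⟨?_, ?_, ?_⟩
  · linear_combination (-(B * w) - C * w ^ 2) * hZs - C * w ^ 2 * Z * hZ3
  · linear_combination (-A - C * w ^ 2) * hZs + (-2 * B * w - C * w ^ 2 * (Z + Z ^ 2)) * hZ3
  · linear_combination (-A - B * w) * hZs + (-(C * w ^ 2) * (Z ^ 3 + 2) - B * w * Z) * hZ3

end

end FFT
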