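import Pool.Agent.Helper386.LOC.B
import Pool.Agent.Helper807.PL.Final
import Pool.Agent.Helper970.D5.FinAC

/-! The transfer, main part. -/

set_option autoImplicit false
set_option linter.all false
set_option linter.overlappingInstances false

open Module FF

attribute [-instance] HahnSeries.powerSeriesAlgebra

namespace FFT

section degrees
variable {R Ω M : Type} [Field R] [CharZero R] [Field Ω] [Field M] [Algebra R Ω] [Algebra R M] [Algebra Ω M]
  [IsScalarTower R Ω M] [Algebra.IsAlgebraic R Ω] [IsFF Ω M]

/-- comparison of degrees over `R(a)` and over `Ω` -/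
theorem degree_compare (L3 : IntermediateField R M) (hff : IsFF R L3)
    (hgen : IntermediateField.adjoin Ω (L3 : Set M) = ⊤)
    (R3 Rw : IntermediateField R M) (h3 : R3 ≤ L3) (hw3 : Rw ≤ R3)
    (h3Ω : ∀ f ∈ R3, f ∈ Set.range (algebraMap Ω M))
    (hR : ∀ f ∈ L3, IsAlgebraic R f → f ∈ R3) [FiniteDimensional R R3]
    (w : L3) (hw : Rw = IntermediateField.adjoin R {(w : M)})
    (u : L3) (hu : Transcendental Ω (u : M)) :
    finrank (IntermediateField.adjoin R {w, u}) L3 * finrank R Rw =
      finrank R R3 * finrank (IntermediateField.adjoin Ω {(u : M)}) M := by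
  classical
  have hRa : ∀ f ∈ R3, IsAlgebraic R f := by
    intro f hf
    obtain ⟨o, rfl⟩ := h3Ω f hf
    have : IsAlgebraic R o := Algebra.IsAlgebraic.isAlgebraic o
    exact this.algebraMap
  have hT1 : ∀ {ι : Type} (v : ι → M), (∀ i, v i ∈ L3) → LinearIndependent R3 v → LinearIndependent Ω v := by
    intro ι v hv hi
    exact lin_disj (E := Ω) L3 R3 h3 hR hRa v hv hi
  let K3 : IntermediateField R L3 := IntermediateField.restrict h3
  let Kw : IntermediateField R L3 := IntermediateField.restrict (hw3.trans h3)
  have hK3 : finrank R K3 = finrank R R3 :=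
    ((IntermediateField.restrictAlgEquiv h3).toLinearEquiv.finrank_eq).symm
  have hKw : finrank R Kw = finrank R Rw :=
    ((IntermediateField.restrictAlgEquiv (hw3.trans h3)).toLinearEquiv.finrank_eq).symm
  haveI : FiniteDimensional R K3 :=
    (IntermediateField.restrictAlgEquiv h3).toLinearEquiv.finiteDimensional
  haveI : FiniteDimensional R Rw := by
    have : Function.Injective (IntermediateField.inclusion hw3).toLinearMap := (IntermediateField.inclusion hw3).injective
    exact FiniteDimensional.of_injective _ this
  haveI : FiniteDimensional R Kw :=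
    (IntermediateField.restrictAlgEquiv (hw3.trans h3)).toLinearEquiv.finiteDimensional
  have hKwad : Kw = IntermediateField.adjoin R {w} := by
    apply IntermediateField.lift_injective L3
    rw [IntermediateField.lift_adjoin, IntermediateField.lift_restrict, hw, Set.image_singleton]
  -- the map from K3 to Ω
  have hK3Ω : ∀ f : K3, ∃ o : Ω, algebraMap Ω M o = ((f : L3) : M) := by
    intro f
    obtain ⟨o, ho⟩ := h3Ω (f : L3) ((IntermediateField.mem_restrict h3 f.1).1 f.2)
    exact ⟨o, ho⟩
  choose ρ0 hρ0 using hK3Ω
  let ρ : K3 →+* Ω :=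
    { toFun := ρ0
      map_one' := (algebraMap Ω M).injective (by rw [hρ0, map_one]; rfl)
      map_mul' := fun a b => (algebraMap Ω M).injective (by rw [hρ0, map_mul, hρ0, hρ0]; rfl)
      map_zero' := (algebraMap Ω M).injective (by rw [hρ0, map_zero]; rfl)
      map_add' := fun a b => (algebraMap Ω M).injective (by rw [hρ0, map_add, hρ0, hρ0]; rfl) }
  have hρ : ∀ f : K3, algebraMap Ω M (ρ f) = ((f : L3) : M) := hρ0
  letI iK : Algebra K3 Ω := ρ.toAlgebra
  haveI : IsScalarTower K3 Ω M := IsScalarTower.of_algebraMap_eq (fun f => (hρ f).symm)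
  have hu3 : Transcendental K3 u := by
    intro h
    apply hu
    have h1 : IsAlgebraic K3 (algebraMap L3 M u) := h.algebraMap
    exact h1.tower_top Ω
  have huw : Transcendental Kw u := by
    intro h
    apply hu3
    obtain ⟨p, hp0, hp⟩ := h
    have hle : Kw ≤ K3 := by
      intro f hf
      rw [IntermediateField.mem_restrict] at hf ⊢
      exact hw3 hf
    let j : Kw →+* K3 := (IntermediateField.inclusion hle).toRingHom
    refine ⟨p.map j, (Polynomial.map_ne_zero_iff j.injective).2 hp0, ?_⟩
    rw [Polynomial.aeval_def, Polynomial.eval₂_map]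
    exact hp
  have hT4a := finrank_adjoin_transc Kw u huw
  have hT4b := finrank_adjoin_transc K3 u hu3
  have hadj : finrank (IntermediateField.adjoin R {w, u}) L3 = finrank (IntermediateField.adjoin Kw {u}) L3 := by
    have h1 : (IntermediateField.adjoin Kw {u}).restrictScalars R = IntermediateField.adjoin R {w, u} := by
      rw [hKwad, IntermediateField.adjoin_adjoin_left]
      congr 1
    rw [← h1]; rfl
  have hindep : ∀ {ι : Type} (v : ι → L3), LinearIndependent K3 v →
      LinearIndependent Ω (fun i => algebraMap L3 M (v i)) := by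
    intro ι v hv
    apply hT1 (fun i => (v i : M)) (fun i => (v i).2)
    let i0 : R3 → K3 := fun r => ⟨⟨r, h3 r.2⟩, (IntermediateField.mem_restrict h3 _).2 r.2⟩
    let j0 : L3 →+ M := (algebraMap L3 M).toAddMonoidHom
    refine LinearIndependent.map_of_injective_injective hv i0 j0 ?_ ?_ ?_
    · intro r hr
      have h1 : ((i0 r : K3) : L3) = 0 := by rw [hr]; rfl
      have h2 : (((i0 r : K3) : L3) : M) = 0 := by rw [h1]; rfl
      exact Subtype.ext h2
    · intro m hm
      exact (algebraMap L3 M).injective (hm.trans (map_zero _).symm)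
    · intro r m
      rfl
  have hgen' : Subfield.closure (Set.range (algebraMap Ω M) ∪ Set.range (algebraMap L3 M)) = ⊤ := by
    rw [eq_top_iff]
    intro f _
    have h1 : f ∈ IntermediateField.adjoin Ω (L3 : Set M) := by rw [hgen]; trivial
    have h2 : (L3 : Set M) = Set.range (algebraMap L3 M) := by
      ext x
      constructor
      · intro hx; exact ⟨⟨x, hx⟩, rfl⟩
      · rintro ⟨y, rfl⟩; exact y.2
    rw [h2] at h1
    exact h1
  have hffu : FiniteDimensional (IntermediateField.adjoin R {u}) L3 := by
    apply IsFF.finite
    intro h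
    exact hu3 (h.tower_top K3)
  have hfin : FiniteDimensional (IntermediateField.adjoin K3 {u}) L3 := by
    have hle : ∀ x ∈ IntermediateField.adjoin R {u}, x ∈ IntermediateField.adjoin K3 {u} := by
      intro x hx
      have h1 : IntermediateField.adjoin R {u} ≤ (IntermediateField.adjoin K3 {u}).restrictScalars R := by
        rw [IntermediateField.adjoin_le_iff, Set.singleton_subset_iff]
        exact IntermediateField.mem_adjoin_simple_self K3 u
      exact h1 hx
    let j : IntermediateField.adjoin R {u} →+* IntermediateField.adjoin K3 {u} :=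
      (algebraMap (IntermediateField.adjoin R {u}) L3).codRestrict (IntermediateField.adjoin K3 {u}).toSubfield
        (fun x => hle x x.2)
    letI : Algebra (IntermediateField.adjoin R {u}) (IntermediateField.adjoin K3 {u}) := j.toAlgebra
    haveI : IsScalarTower (IntermediateField.adjoin R {u}) (IntermediateField.adjoin K3 {u}) L3 :=
      IsScalarTower.of_algebraMap_eq (fun x => rfl)
    exact Module.Finite.of_restrictScalars_finite (IntermediateField.adjoin R {u}) (IntermediateField.adjoin K3 {u}) L3
  have hT3 := finrank_lift (F := K3) (Om := Ω) (L := L3) (M := M) hindep hgen' u hu3 hfin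
  have hT3' : finrank (IntermediateField.adjoin Ω {(u : M)}) M = finrank (IntermediateField.adjoin K3 {u}) L3 := hT3
  rw [hadj, hT3', ← hK3, ← hKw, mul_comm, ← hT4a, hT4b]

end degrees

end FFT
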