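import Pool.Agent.Helper386.LOC.C

/-! The transfer. -/

set_option autoImplicit false
set_option linter.all false
set_option linter.overlappingInstances false

open Module FF

attribute [-instance] HahnSeries.powerSeriesAlgebra

namespace FFT

theorem transfer {k : Type} [Field k] [CharZero k] {E Ω M : Type} [Field E] [CharZero E] [Field Ω] [Field M]
    [Algebra (RR k) E] [Algebra E Ω] [Algebra (RR k) Ω] [IsScalarTower (RR k) E Ω]
    [Algebra Ω M] [Algebra E M] [Algebra (RR k) M] [IsScalarTower E Ω M] [IsScalarTower (RR k) Ω M]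
    [IsScalarTower (RR k) E M] [Algebra k M] [IsScalarTower k (RR k) M]
    [IsAlgClosed Ω] [CharZero Ω] [Algebra.IsAlgebraic E Ω] [IsFF Ω M]
    (z x : k) (hk : SF.IsK k z x) (hE : SF.IsE k x E)
    (hnc : ¬ ∃ c : E, c ^ 3 = algebraMap (RR k) E (SF.yv k))
    (N : IntermediateField E M) (hN : ∀ f ∈ N, IsAlgebraic E f → f ∈ Set.range (algebraMap E M))
    (T0 : Finset M) (hT0 : IntermediateField.adjoin Ω (T0 : Set M) = ⊤) (hT0N : ∀ t ∈ T0, t ∈ N)
    (θ : M →ₐ[RR k] M) (hθN : ∀ f ∈ N, θ f = f) (ω : Ω)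
    (hω : ω ^ 3 = algebraMap (RR k) Ω (SF.yv k)) (ζ : k) (hζ : IsPrimitiveRoot ζ 3)
    (hθω : θ (algebraMap Ω M ω) = algebraMap k M ζ * algebraMap Ω M ω)
    (g : M) (T1 : Finset M) (hT1 : ∀ t ∈ T1, t ∈ N)
    (hgT : g ∈ IntermediateField.adjoin (RR k) ((T1 : Set M) ∪ {algebraMap Ω M ω}))
    (hg : g * θ g * θ (θ g) = algebraMap k M x)
    (s : Finset M) (hs : ∀ t ∈ s, t ∈ N) :
    ∃ (E' : Type) (_ : Field E') (_ : Algebra E E'), FiniteDimensional E E' ∧
      (finrank E E' : ℤ) ∣ ddeg (SF.DD (Ω := Ω) (M := M) g (θ g)) ∧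
      Nonempty (Algebra.adjoin E (s : Set M) →ₐ[E] E') := by
  classical
  haveI hczR : CharZero (RR k) := charZero_of_injective_algebraMap (algebraMap k (RR k)).injective
  haveI hREalg : Algebra.IsAlgebraic (RR k) E := hE.alg
  haveI hRΩalg : Algebra.IsAlgebraic (RR k) Ω := Algebra.IsAlgebraic.trans (RR k) E Ω
  obtain ⟨w, hwd⟩ : ∃ w, w = algebraMap Ω M ω := ⟨_, rfl⟩
  rw [← hwd] at hθω hgT
  have hw3 : w ^ 3 = algebraMap (RR k) M (SF.yv k) := by
    rw [hwd, ← map_pow, hω, ← IsScalarTower.algebraMap_apply]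
  have hx0 : x ≠ 0 := by rintro rfl; exact hk.notcube ⟨0, by norm_num⟩
  have hxM : algebraMap k M x ≠ 0 := by simpa using hx0
  have hg0 : g ≠ 0 := by
    rintro rfl
    apply hxM
    rw [← hg, zero_mul, zero_mul]
  have hθg0 : θ g ≠ 0 := by
    intro h
    apply hxM
    rw [← hg, h, mul_zero, zero_mul]
  -- the finite set of generators
  let Tf : Finset M := T0 ∪ T1 ∪ s
  have hTfN : ∀ t ∈ Tf, t ∈ N := by
    intro t ht
    simp only [Tf, Finset.mem_union] at ht
    rcases ht with (ht | ht) | ht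
    · exact hT0N t ht
    · exact hT1 t ht
    · exact hs t ht
  let LM : IntermediateField (RR k) M := IntermediateField.adjoin (RR k) (Tf : Set M)
  have hLMN : ∀ f ∈ LM, f ∈ N := by
    intro f hf
    have h1 : LM ≤ N.restrictScalars (RR k) := by
      rw [IntermediateField.adjoin_le_iff]
      intro t ht
      exact hTfN t ht
    exact h1 hf
  have hθL : ∀ f ∈ LM, θ f = f := fun f hf => hθN f (hLMN f hf)
  let L3 : IntermediateField (RR k) M := IntermediateField.adjoin (RR k) ((Tf : Set M) ∪ {w})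
  have hL3 : IntermediateField.adjoin (RR k) ((LM : Set M) ∪ {w}) = L3 := adjoin_union_adjoin _ _
  have hLM3 : LM ≤ L3 := IntermediateField.adjoin.mono _ _ _ Set.subset_union_left
  have hwL3 : w ∈ L3 := IntermediateField.subset_adjoin _ _ (Or.inr rfl)
  have hTfL : ∀ t ∈ Tf, t ∈ LM := fun t ht => IntermediateField.subset_adjoin _ _ ht
  -- a transcendental generator
  obtain ⟨ξ, hξT, hξ⟩ : ∃ ξ ∈ T0, Transcendental Ω ξ := by
    by_contra hc
    push Not at hc
    have h1 : Algebra.IsAlgebraic Ω (IntermediateField.adjoin Ω (T0 : Set M)) :=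
      IntermediateField.isAlgebraic_adjoin (fun t ht => by
        have := hc t ht
        unfold Transcendental at this
        push Not at this
        exact this.isIntegral)
    obtain ⟨f, hf⟩ := IsFF.exists_transcendental (k := Ω) (K := M)
    have h2 : f ∈ IntermediateField.adjoin Ω (T0 : Set M) := by rw [hT0]; trivial
    apply hf
    have h3 := h1.isAlgebraic ⟨f, h2⟩
    exact h3.algebraMap (A := M)
  have hξTf : ξ ∈ Tf := by simp only [Tf, Finset.mem_union]; exact Or.inl (Or.inl hξT)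
  haveI hffM : IsFF (RR k) LM := isFF_adjoin (Om := Ω) (Tf : Set M) (Finset.finite_toSet _) ξ (hTfL ξ hξTf) hξ
  haveI hff3 : IsFF (RR k) L3 := isFF_adjoin (Om := Ω) ((Tf : Set M) ∪ {w})
    ((Finset.finite_toSet _).union (Set.finite_singleton _)) ξ (hLM3 (hTfL ξ hξTf)) hξ
  -- constants
  have hconst : ∀ f : M, IsAlgebraic (RR k) f → f ∈ Set.range (algebraMap Ω M) := by
    intro f hf
    have h1 : IsAlgebraic Ω f := hf.tower_top Ω
    have h3 : Algebra.IsAlgebraic Ω (IntermediateField.adjoin Ω {f}) :=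
      IntermediateField.isAlgebraic_adjoin (fun t ht => by
        rw [Set.mem_singleton_iff.1 ht]; exact h1.isIntegral)
    have h4 : Algebra.IsIntegral Ω (IntermediateField.adjoin Ω {f}) := Algebra.IsAlgebraic.isIntegral
    have h2 := (IsAlgClosed.algebraMap_bijective_of_isIntegral
      (k := Ω) (K := IntermediateField.adjoin Ω {f})).2
    obtain ⟨o, ho⟩ := h2 ⟨f, IntermediateField.mem_adjoin_simple_self Ω f⟩
    exact ⟨o, congrArg Subtype.val ho⟩
  -- decomposition
  set Z : RR k := algebraMap k (RR k) ζ with hZd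
  have hZ : IsPrimitiveRoot Z 3 := hζ.map_of_injective (algebraMap k (RR k)).injective
  have hZM : algebraMap (RR k) M Z = algebraMap k M ζ := by
    rw [hZd, ← IsScalarTower.algebraMap_apply k (RR k) M]
  have hθw : θ w = algebraMap (RR k) M Z * w := by rw [hZM]; exact hθω
  have hdec := fun (f : M) (hf : f ∈ L3) => decomp_fixed LM w (SF.yv k) hw3 Z hZ θ hθL hθw f (by rw [hL3]; exact hf)
  have hZ3 : (algebraMap (RR k) M Z) ^ 3 = 1 := by rw [← map_pow, hZ.pow_eq_one, map_one]
  have hθ3 : ∀ f ∈ L3, θ f ∈ L3 := by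
    intro f hf
    obtain ⟨A, B, C, hA, hB, hC, rfl, -⟩ := hdec f hf
    rw [map_add, map_add, map_mul, map_mul, map_pow, hθL A hA, hθL B hB, hθL C hC, hθw]
    have hZL : algebraMap (RR k) M Z ∈ L3 := L3.algebraMap_mem Z
    exact add_mem (add_mem (hLM3 hA) (mul_mem (hLM3 hB) (mul_mem hZL hwL3)))
      (mul_mem (hLM3 hC) (pow_mem (mul_mem hZL hwL3) 2))
  have hθ33 : ∀ f ∈ L3, θ (θ (θ f)) = f := by
    intro f hf
    obtain ⟨A, B, C, hA, hB, hC, rfl, -⟩ := hdec f hf
    have hθZ : θ (algebraMap (RR k) M Z) = algebraMap (RR k) M Z := θ.commutes Z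
    simp only [map_add, map_mul, map_pow, hθL A hA, hθL B hB, hθL C hC, hθw, hθZ]
    linear_combination (B * w + C * w ^ 2 * ((algebraMap (RR k) M Z) ^ 3 + 1)) * hZ3
  obtain ⟨s3, hs3⟩ := exists_restrict L3 θ hθ3 hθ33
  let Lf : IntermediateField (RR k) L3 := fixF s3
  have h3ne : (3 : M) ≠ 0 := by
    haveI : CharZero M := charZero_of_injective_algebraMap (algebraMap (RR k) M).injective
    exact three_ne_zero
  have hLf : ∀ f : L3, f ∈ Lf ↔ (f : M) ∈ LM := by
    intro f
    rw [mem_fixF]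
    constructor
    · intro h
      have h1 : θ (f : M) = f := by rw [← hs3, h]
      obtain ⟨A, B, C, hA, hB, hC, hf, hA3, -⟩ := hdec f f.2
      rw [h1, h1] at hA3
      have h2 : (f : M) = A := by
        apply mul_left_cancel₀ h3ne
        rw [hA3]; ring
      rw [h2]; exact hA
    · intro h
      apply Subtype.ext
      rw [hs3]; exact hθL _ h
  -- elements algebraic over R
  let RE : IntermediateField (RR k) E := LM.comap (IsScalarTower.toAlgHom (RR k) E M)
  have hRE : ∀ e : E, e ∈ RE ↔ algebraMap E M e ∈ LM := fun e => Iff.rfl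
  haveI hREfin : FiniteDimensional (RR k) RE := by
    haveI := SF.finite_algClosure (RR k) LM
    let j : RE →ₐ[RR k] algebraicClosure (RR k) LM :=
      (((IsScalarTower.toAlgHom (RR k) E M).comp RE.val).codRestrict LM.toSubalgebra (fun e => e.2)).codRestrict
        (algebraicClosure (RR k) LM).toSubalgebra (fun e => by
          change _ ∈ algebraicClosure (RR k) LM
          rw [mem_algebraicClosure_iff]
          have h1 : IsAlgebraic (RR k) (e : E) := Algebra.IsAlgebraic.isAlgebraic _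
          have h2 : IsAlgebraic (RR k) (algebraMap E M (e : E)) := h1.algebraMap
          have h3 : algebraMap LM M ⟨algebraMap E M (e : E), e.2⟩ = algebraMap E M (e : E) := rfl
          rw [← h3] at h2
          exact (isAlgebraic_algebraMap_iff (algebraMap LM M).injective).1 h2)
    have hj : Function.Injective j.toLinearMap := j.injective
    exact FiniteDimensional.of_injective _ hj
  obtain ⟨α0, hα0⟩ := Field.exists_primitive_element (RR k) RE
  obtain ⟨t0, ht0⟩ : ∃ t0 : E, t0 = (α0 : E) := ⟨_, rfl⟩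
  have hRE2 : RE = IntermediateField.adjoin (RR k) {t0} := by
    have h1 : IntermediateField.lift (F := RE) (IntermediateField.adjoin (RR k) {α0}) = IntermediateField.adjoin (RR k) {t0} := by
      rw [IntermediateField.lift_adjoin, Set.image_singleton, ht0]
    rw [hα0, IntermediateField.lift_top] at h1
    exact h1
  have ht0L : algebraMap E M t0 ∈ LM := by
    have : t0 ∈ RE := by rw [ht0]; exact α0.2
    exact this
  have hmapad : ∀ e ∈ RE, algebraMap E M e ∈ IntermediateField.adjoin (RR k) {algebraMap E M t0} := by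
    intro e he
    rw [hRE2] at he
    have h1 : algebraMap E M e ∈ (IntermediateField.adjoin (RR k) {t0}).map (IsScalarTower.toAlgHom (RR k) E M) :=
      ⟨e, he, rfl⟩
    rw [IntermediateField.adjoin_map, Set.image_singleton] at h1
    exact h1
  have hθalg : ∀ f ∈ LM, IsAlgebraic (RR k) f → f ∈ IntermediateField.adjoin (RR k) {algebraMap E M t0} := by
    intro f hf hfa
    obtain ⟨e, rfl⟩ := hN f (hLMN f hf) (hfa.tower_top E)
    exact hmapad e hf
  have ht0alg : IsAlgebraic (RR k) t0 := Algebra.IsAlgebraic.isAlgebraic t0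
  obtain ⟨n, hn⟩ : ∃ n, n = finrank (RR k) (IntermediateField.adjoin (RR k) {t0}) := ⟨_, rfl⟩
  have hn0 : 0 < n := by
    rw [hn]
    haveI : FiniteDimensional (RR k) (IntermediateField.adjoin (RR k) {t0}) :=
      IntermediateField.adjoin.finiteDimensional ht0alg.isIntegral
    exact Module.finrank_pos
  -- minimal point
  let S : Finset M := insert (algebraMap E M t0) s
  have hSL : ∀ t ∈ S, t ∈ LM := by
    intro t ht
    rcases Finset.mem_insert.1 ht with rfl | h
    · exact ht0L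
    · apply hTfL
      simp only [Tf, Finset.mem_union]; exact Or.inr h
  obtain ⟨i, ⟨E', iE1, iE2, hE'1, hE'2, hE'3⟩, hmin⟩ := exists_min E M S hE.pow3
  refine ⟨E', iE1, iE2, hE'1, ?_, ?_⟩
  swap
  · obtain ⟨φ⟩ := hE'3
    have h1 : Algebra.adjoin E (s : Set M) ≤ Algebra.adjoin E (S : Set M) := by
      apply Algebra.adjoin_mono
      intro t ht
      exact Finset.mem_insert_of_mem ht
    exact ⟨φ.comp (Subalgebra.inclusion h1)⟩
  -- apply the local theorem
  let c0 : Finset Lf := S.attach.image (fun t => ⟨⟨t.1, hLM3 (hSL t.1 t.2)⟩, (hLf _).2 (hSL t.1 t.2)⟩)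
  have HJ : ∀ (Ψ : Type) [Field Ψ] [Algebra (RR k) Ψ], FiniteDimensional (RR k) Ψ →
      Nonempty (Algebra.adjoin (RR k) (c0 : Set Lf) →ₐ[RR k] Ψ) →
      3 ^ (padicValNat 3 n + i) ∣ finrank (RR k) Ψ := by
    rintro Ψ _ _ hΨ ⟨φ⟩
    obtain ⟨φ'⟩ := hom_transport (L3.val.comp Lf.val) (by
        intro a b hab
        exact Subtype.ext (Subtype.ext hab)) (c0 : Set Lf) (S : Set M) (by
      intro t ht
      refine ⟨⟨⟨t, hLM3 (hSL t ht)⟩, (hLf _).2 (hSL t ht)⟩, ?_, rfl⟩
      simp only [c0, Finset.coe_image, Set.mem_image, Finset.mem_coe, Finset.mem_attach, true_and, Subtype.exists]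
      exact ⟨t, ht, rfl⟩) φ
    have h1 := HJ_lemma LM S hSL t0 (Finset.mem_insert_self _ _) hθalg (3 ^ i)
      (fun E'' _ _ h1 h2 => hmin E'' h1 h2) Ψ hΨ φ'
    rw [← hn] at h1
    exact (three_dvd_mul n i).trans h1
  have hwL : (⟨w, hwL3⟩ : L3) ^ 3 = algebraMap (RR k) L3 (SF.yv k) := Subtype.ext hw3
  have hgL3 : g ∈ L3 := by
    have h1 : IntermediateField.adjoin (RR k) ((T1 : Set M) ∪ {w}) ≤ L3 := by
      apply IntermediateField.adjoin.mono
      rintro t (ht | ht)
      · left
        simp only [Tf, Finset.coe_union]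
        exact Or.inl (Or.inr ht)
      · exact Or.inr ht
    exact h1 hgT
  haveI hst : IsScalarTower k L3 M := IsScalarTower.of_algebraMap_eq (fun c => rfl)
  have hkL3 : ∀ c : k, ((algebraMap k L3 c : L3) : M) = algebraMap k M c := fun c => rfl
  haveI hst3 : IsScalarTower k (RR k) L3 := IsScalarTower.of_algebraMap_eq (fun c => by
    apply Subtype.ext
    change algebraMap k M c = algebraMap (RR k) M (algebraMap k (RR k) c)
    rw [← IsScalarTower.algebraMap_apply k (RR k) M])
  have hgg3 : (⟨g, hgL3⟩ : L3) * s3 ⟨g, hgL3⟩ * s3 (s3 ⟨g, hgL3⟩) = algebraMap k L3 x := by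
    apply Subtype.ext
    change g * (s3 ⟨g, hgL3⟩ : M) * (s3 (s3 ⟨g, hgL3⟩) : M) = algebraMap k M x
    rw [hs3, hs3, hs3]
    exact hg
  have hs33 : ∀ f, s3 (s3 (s3 f)) = f := by
    intro f
    apply Subtype.ext
    rw [hs3, hs3, hs3]
    exact hθ33 f f.2
  have hsw : s3 ⟨w, hwL3⟩ = algebraMap k L3 ζ * ⟨w, hwL3⟩ := by
    apply Subtype.ext
    rw [hs3]
    exact hθω
  obtain ⟨W, hW0, hW⟩ := SF.LOC_core_of SF.plStmtII SF.plStmtI k z x hk L3 Lf s3 hs33 (fun f => mem_fixF s3 f)
    ⟨w, hwL3⟩ hwL ζ hζ hsw ⟨g, hgL3⟩ hgg3 c0 (3 ^ (padicValNat 3 n + i)) ⟨_, rfl⟩ HJ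
  letI iAkΩ : Algebra k Ω := ((algebraMap (RR k) Ω).comp (algebraMap k (RR k))).toAlgebra
  have hkΩM : ∀ c : k, algebraMap Ω M (algebraMap k Ω c) = algebraMap k M c := by
    intro c
    change algebraMap Ω M (algebraMap (RR k) Ω (algebraMap k (RR k) c)) = _
    rw [← IsScalarTower.algebraMap_apply (RR k) Ω M, ← IsScalarTower.algebraMap_apply k (RR k) M]
  obtain ⟨W', hW'0, hW'⟩ := ddeg_DD (k := k) (Om := Ω) g (θ g) hg0 hθg0
  obtain ⟨p, hp, hp'⟩ := exists_good k Ω W W' hW0 hW'0
  obtain ⟨hne, hdvd⟩ := hW p hp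
  have hneM : g * θ g ≠ algebraMap Ω M (algebraMap k Ω (p 1)) := by
    intro h
    apply hne
    apply Subtype.ext
    change g * (s3 ⟨g, hgL3⟩ : M) = algebraMap k M (p 1)
    rw [hs3, ← hkΩM]
    exact h
  have hDD := hW' p hp' hneM
  obtain ⟨u, hud⟩ : ∃ u, u = (g - algebraMap Ω M (algebraMap k Ω (p 0))) /
    (g * θ g - algebraMap Ω M (algebraMap k Ω (p 1))) := ⟨_, rfl⟩
  rw [← hud] at hDD
  rw [hE'2]
  by_cases hu : Transcendental Ω u
  · rw [hDD.1 hu]
    -- the element u in L3
    obtain ⟨u3, hu3d⟩ : ∃ u3 : L3, u3 = ((⟨g, hgL3⟩ : L3) - algebraMap k L3 (p 0)) /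
      ((⟨g, hgL3⟩ : L3) * s3 ⟨g, hgL3⟩ - algebraMap k L3 (p 1)) := ⟨_, rfl⟩
    rw [← hu3d] at hdvd
    have hu3 : (u3 : M) = u := by
      rw [hu3d, hud, hkΩM, hkΩM]
      change (g - algebraMap k M (p 0)) / (g * (s3 ⟨g, hgL3⟩ : M) - algebraMap k M (p 1)) = _
      rw [hs3]
    rw [← hu3] at hu ⊢
    -- the field of constants
    obtain ⟨hf1, hf2⟩ := finrank_adjoin_cube (R := RR k) (E := E) (M := M) (SF.yv k) hnc w hw3 t0 ht0alg
    let R3 : IntermediateField (RR k) M := IntermediateField.adjoin (RR k) {algebraMap E M t0, w}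
    let Rw : IntermediateField (RR k) M := IntermediateField.adjoin (RR k) {w}
    have hR3L : R3 ≤ L3 := by
      rw [IntermediateField.adjoin_le_iff]
      rintro t (rfl | rfl)
      · exact hLM3 ht0L
      · exact hwL3
    have hRw3 : Rw ≤ R3 := IntermediateField.adjoin.mono _ _ _ (by simp)
    have hR3Ω : ∀ f ∈ R3, f ∈ Set.range (algebraMap Ω M) := by
      have h1 : R3 ≤ (IsScalarTower.toAlgHom (RR k) Ω M).fieldRange := by
        rw [IntermediateField.adjoin_le_iff]
        rintro t (rfl | rfl)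
        · exact ⟨algebraMap E Ω t0, (IsScalarTower.algebraMap_apply E Ω M t0).symm⟩
        · exact ⟨ω, hwd.symm⟩
      intro f hf
      exact h1 hf
    haveI hR3fin : FiniteDimensional (RR k) R3 := by
      apply FiniteDimensional.of_finrank_pos
      rw [hf1, ← hn]; omega
    have hw0 : w ≠ 0 := by
      rintro rfl
      have h1 : algebraMap (RR k) M (SF.yv k) ≠ 0 := by simpa using yv_ne_zero (k := k)
      apply h1; rw [← hw3]; norm_num
    have hR3alg : ∀ f ∈ L3, IsAlgebraic (RR k) f → f ∈ R3 := by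
      intro f hf hfa
      obtain ⟨A, B, C, hA, hB, hC, hfe, h1, h2, h3⟩ := hdec f hf
      have hθa : IsAlgebraic (RR k) (θ f) := hfa.algHom θ
      have hθθa : IsAlgebraic (RR k) (θ (θ f)) := hθa.algHom θ
      have hZa : IsAlgebraic (RR k) (algebraMap (RR k) M Z) := isAlgebraic_algebraMap Z
      have h3a : IsAlgebraic (RR k) (3 : M) := by
        have := isAlgebraic_algebraMap (R := RR k) (A := M) 3
        rwa [map_ofNat] at this
      have hwa : IsAlgebraic (RR k) w := by
        apply IsAlgebraic.of_pow (n := 3) (by norm_num)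
        rw [hw3]; exact isAlgebraic_algebraMap _
      have hAa : IsAlgebraic (RR k) A := by
        have h4 : A = (3 : M)⁻¹ * (f + θ f + θ (θ f)) := by
          rw [← h1]; field_simp
        rw [h4]
        exact h3a.inv.mul ((hfa.add hθa).add hθθa)
      have hBa : IsAlgebraic (RR k) B := by
        have h4 : B = (3 : M)⁻¹ * w⁻¹ * (f + (algebraMap (RR k) M Z) ^ 2 * θ f + algebraMap (RR k) M Z * θ (θ f)) := by
          rw [← h2]; field_simp
        rw [h4]
        exact (h3a.inv.mul hwa.inv).mul ((hfa.add ((hZa.pow 2).mul hθa)).add (hZa.mul hθθa))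
      have hCa : IsAlgebraic (RR k) C := by
        have h4 : C = (3 : M)⁻¹ * (w⁻¹) ^ 2 * (f + algebraMap (RR k) M Z * θ f + (algebraMap (RR k) M Z) ^ 2 * θ (θ f)) := by
          rw [← h3]; field_simp
        rw [h4]
        exact (h3a.inv.mul (hwa.inv.pow 2)).mul ((hfa.add (hZa.mul hθa)).add ((hZa.pow 2).mul hθθa))
      have hle : IntermediateField.adjoin (RR k) {algebraMap E M t0} ≤ R3 :=
        IntermediateField.adjoin.mono _ _ _ (by simp)
      have hwR : w ∈ R3 := IntermediateField.subset_adjoin _ _ (by simp)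
      rw [hfe]
      exact add_mem (add_mem (hle (hθalg A hA hAa)) (mul_mem (hle (hθalg B hB hBa)) hwR))
        (mul_mem (hle (hθalg C hC hCa)) (pow_mem hwR 2))
    have hgen : IntermediateField.adjoin Ω (L3 : Set M) = ⊤ := by
      rw [eq_top_iff, ← hT0]
      apply IntermediateField.adjoin.mono
      intro t ht
      apply hLM3
      apply hTfL
      simp only [Tf, Finset.mem_union]
      exact Or.inl (Or.inl ht)
    have hcmp := degree_compare (Ω := Ω) L3 hff3 hgen R3 Rw hR3L hRw3 hR3Ω hR3alg ⟨w, hwL3⟩ rfl u3 hu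
    have hf1' : finrank (RR k) R3 = 3 * n := by rw [hn]; exact hf1
    have hf2' : finrank (RR k) Rw = 3 := hf2
    rw [hf1', hf2'] at hcmp
    have hcmp' : finrank (IntermediateField.adjoin (RR k) {(⟨w, hwL3⟩ : L3), u3}) L3 =
        n * finrank (IntermediateField.adjoin Ω {(u3 : M)}) M := by
      have h1 : 3 * finrank (IntermediateField.adjoin (RR k) {(⟨w, hwL3⟩ : L3), u3}) L3 =
        3 * (n * finrank (IntermediateField.adjoin Ω {(u3 : M)}) M) := by
        rw [mul_comm 3, hcmp]; ring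
      exact Nat.eq_of_mul_eq_mul_left (by norm_num) h1
    rw [hcmp'] at hdvd
    exact_mod_cast dvd_of_three n _ i hn0 hdvd
  · rw [hDD.2 hu]
    exact dvd_zero _

end FFT
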