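import Pool.Agent.Helper386.LOC.D
import Pool.Agent.Helper379.SFGal

/-! LOC (docs 318). -/

set_option autoImplicit false
set_option linter.all false
set_option linter.overlappingInstances false

open Module FF

attribute [-instance] HahnSeries.powerSeriesAlgebra

namespace FFT

theorem n3_prod' {R : Type*} [CommRing R] (A z g0 g1 g2 : R) (hz : z ^ 2 + z + 1 = 0) :
    (g0 + g1 * A + g2 * A ^ 2) * (g0 + g1 * (z * A) + g2 * (z * A) ^ 2) *
      (g0 + g1 * (z * (z * A)) + g2 * (z * (z * A)) ^ 2) = SF.N3 (A ^ 3) g0 g1 g2 := by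
  unfold SF.N3
  linear_combination (g0 + g1 * A + g2 * A ^ 2) * (g0 * (g1 * A) + g0 * (g2 * A ^ 2) * (z ^ 2 - z + 1)
    + (g1 * A) ^ 2 * (z - 1) + (g1 * A) * (g2 * A ^ 2) * (z ^ 3 - z + 1)
    + (g2 * A ^ 2) ^ 2 * (z - 1) * (z ^ 3 + 1)) * hz

theorem LOC (k : Type) [Field k] [CharZero k] (z x : k) (hk : SF.IsK k z x)
    (E : Type) [Field E] [CharZero E] [Algebra (LaurentSeries k) E] (hE : SF.IsE k x E)
    (hnc : ¬ ∃ c : E, c ^ 3 = algebraMap (LaurentSeries k) E (SF.yv k))
    (Ω L M : Type) [Field Ω] [Algebra E Ω] [Field L] [Algebra E L] [Field M] [Algebra Ω M] [Algebra L M]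
    [IsAlgClosed Ω] [CharZero Ω] [Algebra.IsAlgebraic E Ω] [IsFF E L] [IsFF Ω M] (m : SF.Model E Ω L M)
    (a : E) (ha : ∃ c : E, c ≠ 0 ∧ (a = algebraMap (LaurentSeries k) E (SF.yv k) * c ^ 3 ∨
      a * algebraMap (LaurentSeries k) E (SF.yv k) = c ^ 3))
    (α : Ω) (hα : α ^ 3 = algebraMap E Ω a) (ζ : Ω) (hζ : IsPrimitiveRoot ζ 3) (g0 g1 g2 : L)
    (hg : SF.N3 (algebraMap E L a) g0 g1 g2 = algebraMap E L (algebraMap (LaurentSeries k) E (HahnSeries.C x)))
    (s : Finset L) :
    ∃ (E' : Type) (_ : Field E') (_ : Algebra E E'), FiniteDimensional E E' ∧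
      (finrank E E' : ℤ) ∣ ddeg (SF.DD (Ω := Ω) (M := M) (SF.cj α g0 g1 g2) (SF.cj (ζ * α) g0 g1 g2)) ∧
      Nonempty (Algebra.adjoin E (s : Set L) →ₐ[E] E') := by
  classical
  -- algebra structures
  letI iRΩ : Algebra (RR k) Ω := ((algebraMap E Ω).comp (algebraMap (RR k) E)).toAlgebra
  haveI : IsScalarTower (RR k) E Ω := IsScalarTower.of_algebraMap_eq (fun _ => rfl)
  letI iEM : Algebra E M := ((algebraMap Ω M).comp (algebraMap E Ω)).toAlgebra
  haveI : IsScalarTower E Ω M := IsScalarTower.of_algebraMap_eq (fun _ => rfl)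
  letI iRM : Algebra (RR k) M := ((algebraMap Ω M).comp (algebraMap (RR k) Ω)).toAlgebra
  haveI : IsScalarTower (RR k) Ω M := IsScalarTower.of_algebraMap_eq (fun _ => rfl)
  haveI : IsScalarTower (RR k) E M := IsScalarTower.of_algebraMap_eq (fun _ => rfl)
  letI ikM : Algebra k M := ((algebraMap (RR k) M).comp (algebraMap k (RR k))).toAlgebra
  haveI : IsScalarTower k (RR k) M := IsScalarTower.of_algebraMap_eq (fun _ => rfl)
  obtain ⟨y, hy⟩ : ∃ y : E, y = algebraMap (RR k) E (SF.yv k) := ⟨_, rfl⟩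
  have hy0 : y ≠ 0 := by
    rw [hy]; simpa using yv_ne_zero (k := k)
  obtain ⟨c, hc0, hc⟩ := ha
  rw [← hy] at hc
  have ha0 : a ≠ 0 := by
    rintro rfl
    rcases hc with h | h
    · exact (mul_ne_zero hy0 (pow_ne_zero 3 hc0)) h.symm
    · rw [zero_mul] at h; exact (pow_ne_zero 3 hc0) h.symm
  have hanc : ∀ b : E, b ^ 3 ≠ a := by
    intro b hb
    have hb0 : b ≠ 0 := by rintro rfl; apply ha0; rw [← hb]; norm_num
    apply hnc
    rw [← hy]
    rcases hc with h | h
    · refine ⟨b / c, ?_⟩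
      rw [div_pow, hb, h]; field_simp
    · refine ⟨c / b, ?_⟩
      rw [div_pow, ← h, hb]; field_simp
  have hα0 : α ≠ 0 := by
    rintro rfl
    rw [zero_pow (by norm_num)] at hα
    exact ha0 (by simpa using hα.symm)
  -- the automorphism
  have hirr : Irreducible (Polynomial.X ^ 3 - Polynomial.C a) := X_pow_sub_C_irreducible_of_prime Nat.prime_three hanc
  have hαa : IsAlgebraic E α := Algebra.IsAlgebraic.isAlgebraic α
  have hmin : Polynomial.X ^ 3 - Polynomial.C a = minpoly E α := by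
    apply minpoly.eq_of_irreducible_of_monic hirr
    · rw [map_sub, map_pow, Polynomial.aeval_X, Polynomial.aeval_C, hα, sub_self]
    · exact Polynomial.monic_X_pow_sub_C _ (by norm_num)
  obtain ⟨σ, hσ⟩ := SF.exists_conj (T := E) (y := ζ * α) hαa (by
    rw [← hmin, map_sub, map_pow, Polynomial.aeval_X, Polynomial.aeval_C, mul_pow, hζ.pow_eq_one, one_mul, hα, sub_self])
  have hσE : ∀ e : E, σ (algebraMap E Ω e) = algebraMap E Ω e := fun e => σ.commutes e
  -- the root of unity comes from k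
  let κ : k →+* Ω := (algebraMap (RR k) Ω).comp (algebraMap k (RR k))
  have hκE : ∀ c : k, κ c = algebraMap E Ω (algebraMap (RR k) E (algebraMap k (RR k) c)) := fun c => rfl
  have hκM : ∀ c : k, algebraMap Ω M (κ c) = algebraMap k M c := fun c => rfl
  have hzΩ : IsPrimitiveRoot (κ z) 3 := hk.prim.map_of_injective κ.injective
  obtain ⟨i, -, hi⟩ := hzΩ.eq_pow_of_pow_eq_one hζ.pow_eq_one
  obtain ⟨ζ1, hζ1⟩ : ∃ ζ1 : k, κ ζ1 = ζ := ⟨z ^ i, by rw [map_pow, hi]⟩
  have hζ1p : IsPrimitiveRoot ζ1 3 := by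
    have h : IsPrimitiveRoot (κ ζ1) 3 := by rw [hζ1]; exact hζ
    exact h.of_map_of_injective κ.injective
  have hσζ : σ ζ = ζ := by rw [← hζ1, hκE, hσE]
  -- the cube root of y
  obtain ⟨ω, ζk, hω3, hζk, hσω, hαω⟩ : ∃ (ω : Ω) (ζk : k), ω ^ 3 = algebraMap (RR k) Ω (SF.yv k) ∧
      IsPrimitiveRoot ζk 3 ∧ σ ω = κ ζk * ω ∧ (α = algebraMap E Ω c * ω ∨ α = algebraMap E Ω c * ω⁻¹) := by
    have hcΩ : algebraMap E Ω c ≠ 0 := by simpa using hc0
    have hyΩ : algebraMap (RR k) Ω (SF.yv k) = algebraMap E Ω y := by rw [hy]; rfl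
    rcases hc with h | h
    · refine ⟨α / algebraMap E Ω c, ζ1, ?_, hζ1p, ?_, Or.inl ?_⟩
      · rw [div_pow, hα, h, hyΩ, map_mul, map_pow]
        field_simp
      · rw [map_div₀, hσ, hσE, hζ1]; ring
      · field_simp
    · refine ⟨algebraMap E Ω c / α, ζ1⁻¹, ?_, hζ1p.inv, ?_, Or.inr ?_⟩
      · rw [div_pow, hα, ← map_pow, ← h, hyΩ, map_mul]
        have : algebraMap E Ω a ≠ 0 := by simpa using ha0
        field_simp
      · rw [map_div₀, hσ, hσE, map_inv₀, hζ1]
        have : ζ ≠ 0 := hζ.ne_zero (by norm_num)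
        field_simp
      · rw [inv_div]; field_simp
  -- the automorphism of M
  let θ : M →ₐ[RR k] M :=
    { (m.act σ : M →+* M) with
      commutes' := fun r => by
        change m.act σ (algebraMap Ω M (algebraMap E Ω (algebraMap (RR k) E r))) = _
        rw [m.act_const, hσE]; rfl }
  have hθ : ∀ f, θ f = m.act σ f := fun f => rfl
  let ιL : L →ₐ[E] M := { algebraMap L M with commutes' := fun e => (m.compat e).symm }
  have hιL : ∀ l, ιL l = algebraMap L M l := fun l => rfl
  let N : IntermediateField E M := ιL.fieldRange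
  have hNmem : ∀ l : L, algebraMap L M l ∈ N := fun l => ⟨l, rfl⟩
  have hN : ∀ f ∈ N, IsAlgebraic E f → f ∈ Set.range (algebraMap E M) := by
    rintro _ ⟨l, rfl⟩ hf
    have h1 : IsAlgebraic Ω (ιL l) := hf.tower_top Ω
    have h3 : Algebra.IsAlgebraic Ω (IntermediateField.adjoin Ω {ιL l}) :=
      IntermediateField.isAlgebraic_adjoin (fun t ht => by
        rw [Set.mem_singleton_iff.1 ht]; exact h1.isIntegral)
    have h4 : Algebra.IsIntegral Ω (IntermediateField.adjoin Ω {ιL l}) := Algebra.IsAlgebraic.isIntegral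
    have h2 := (IsAlgClosed.algebraMap_bijective_of_isIntegral
      (k := Ω) (K := IntermediateField.adjoin Ω {ιL l})).2
    obtain ⟨o, ho⟩ := h2 ⟨ιL l, IntermediateField.mem_adjoin_simple_self Ω (ιL l)⟩
    have ho' : algebraMap Ω M o = algebraMap L M l := congrArg Subtype.val ho
    have h5 : ∀ τ : Ω ≃ₐ[E] Ω, τ o = o := by
      intro τ
      apply (algebraMap Ω M).injective
      rw [← m.act_const, ho', m.act_L]
    obtain ⟨e, he⟩ := SF.mem_range_of_fixed h5
    refine ⟨e, ?_⟩
    change algebraMap Ω M (algebraMap E Ω e) = algebraMap L M l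
    rw [← ho']
    congr 1
  have hθN : ∀ f ∈ N, θ f = f := by
    rintro _ ⟨l, rfl⟩
    exact m.act_L σ l
  -- generators
  obtain ⟨s0, hs0⟩ := (by
    haveI := (inferInstance : IsFF E L).ess
    exact IntermediateField.fg_top E L : (⊤ : IntermediateField E L).FG)
  let T0 : Finset M := s0.image (algebraMap L M)
  have hT0 : IntermediateField.adjoin Ω (T0 : Set M) = ⊤ := by
    have h1 : ∀ l : L, algebraMap L M l ∈ IntermediateField.adjoin Ω (T0 : Set M) := by
      intro l
      have h2 : (IntermediateField.adjoin E (s0 : Set L)).map ιL ≤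
          (IntermediateField.adjoin Ω (T0 : Set M)).restrictScalars E := by
        rw [IntermediateField.adjoin_map, IntermediateField.adjoin_le_iff]
        rintro _ ⟨t, ht, rfl⟩
        have h6 : ιL t ∈ (T0 : Set M) := by
          simp only [T0, Finset.coe_image]
          exact ⟨t, ht, rfl⟩
        have h7 : ιL t ∈ IntermediateField.adjoin Ω (T0 : Set M) := IntermediateField.subset_adjoin Ω _ h6
        exact h7
      have h3 : l ∈ IntermediateField.adjoin E (s0 : Set L) := by rw [hs0]; trivial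
      have h4 : ιL l ∈ (IntermediateField.adjoin E (s0 : Set L)).map ιL := ⟨l, h3, rfl⟩
      have h5 : ιL l ∈ (IntermediateField.adjoin Ω (T0 : Set M)).restrictScalars E := h2 h4
      exact h5
    have h3 : ∀ p ∈ Submodule.span Ω (Set.range (algebraMap L M)),
        p ∈ IntermediateField.adjoin Ω (T0 : Set M) := by
      intro p hp
      have : Submodule.span Ω (Set.range (algebraMap L M)) ≤
          (IntermediateField.adjoin Ω (T0 : Set M)).toSubalgebra.toSubmodule := by
        rw [Submodule.span_le]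
        rintro _ ⟨l, rfl⟩
        exact h1 l
      exact this hp
    rw [eq_top_iff]
    intro f _
    obtain ⟨p, q, hp, hq, _, rfl⟩ := m.frac f
    exact div_mem (h3 p hp) (h3 q hq)
  have hT0N : ∀ t ∈ T0, t ∈ N := by
    intro t ht
    simp only [T0, Finset.mem_image] at ht
    obtain ⟨l, -, rfl⟩ := ht
    exact hNmem l
  have hθω : θ (algebraMap Ω M ω) = algebraMap k M ζk * algebraMap Ω M ω := by
    rw [hθ, m.act_const, hσω, map_mul, hκM]
  let g : M := SF.cj α g0 g1 g2
  let T1 : Finset M := {algebraMap L M g0, algebraMap L M g1, algebraMap L M g2, algebraMap L M (algebraMap E L c)}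
  have hT1 : ∀ t ∈ T1, t ∈ N := by
    intro t ht
    simp only [T1, Finset.mem_insert, Finset.mem_singleton] at ht
    rcases ht with rfl | rfl | rfl | rfl
    all_goals exact hNmem _
  have hgT : g ∈ IntermediateField.adjoin (RR k) ((T1 : Set M) ∪ {algebraMap Ω M ω}) := by
    have hsub : ∀ t ∈ T1, t ∈ IntermediateField.adjoin (RR k) ((T1 : Set M) ∪ {algebraMap Ω M ω}) :=
      fun t ht => IntermediateField.subset_adjoin _ _ (Or.inl ht)
    have hωm : algebraMap Ω M ω ∈ IntermediateField.adjoin (RR k) ((T1 : Set M) ∪ {algebraMap Ω M ω}) :=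
      IntermediateField.subset_adjoin _ _ (Or.inr rfl)
    have hcm : algebraMap Ω M (algebraMap E Ω c) ∈
        IntermediateField.adjoin (RR k) ((T1 : Set M) ∪ {algebraMap Ω M ω}) := by
      rw [m.compat]; exact hsub _ (by simp [T1])
    have hαm : algebraMap Ω M α ∈ IntermediateField.adjoin (RR k) ((T1 : Set M) ∪ {algebraMap Ω M ω}) := by
      rcases hαω with h | h
      · rw [h, map_mul]; exact mul_mem hcm hωm
      · rw [h, map_mul, map_inv₀]; exact mul_mem hcm (inv_mem hωm)
    change algebraMap L M g0 + algebraMap L M g1 * algebraMap Ω M α + algebraMap L M g2 * algebraMap Ω M (α ^ 2) ∈ _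
    rw [map_pow]
    exact add_mem (add_mem (hsub _ (by simp [T1])) (mul_mem (hsub _ (by simp [T1])) hαm))
      (mul_mem (hsub _ (by simp [T1])) (pow_mem hαm 2))
  have hact : ∀ β : Ω, θ (SF.cj β g0 g1 g2) = SF.cj (σ β) g0 g1 g2 := by
    intro β
    rw [hθ]
    unfold SF.cj
    simp only [map_add, map_mul, m.act_L, m.act_const, map_pow]
  have hθg : θ g = SF.cj (ζ * α) g0 g1 g2 := by rw [hact, hσ]
  have hθθg : θ (θ g) = SF.cj (ζ * (ζ * α)) g0 g1 g2 := by rw [hθg, hact, map_mul, hσ, hσζ]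
  have hgg : g * θ g * θ (θ g) = algebraMap k M x := by
    rw [hθθg, hθg]
    have hζs : (algebraMap Ω M ζ) ^ 2 + algebraMap Ω M ζ + 1 = 0 := by
      have h1 := hζ.geom_sum_eq_zero (by norm_num)
      have h2 : ζ ^ 2 + ζ + 1 = 0 := by
        rw [Finset.sum_range_succ, Finset.sum_range_succ, Finset.sum_range_one] at h1
        linear_combination h1
      have := congrArg (algebraMap Ω M) h2
      simpa using this
    have h3 := n3_prod' (algebraMap Ω M α) (algebraMap Ω M ζ) (algebraMap L M g0) (algebraMap L M g1)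
      (algebraMap L M g2) hζs
    have h4 : (algebraMap Ω M α) ^ 3 = algebraMap L M (algebraMap E L a) := by
      rw [← map_pow, hα, m.compat]
    have h5 : SF.N3 (algebraMap L M (algebraMap E L a)) (algebraMap L M g0) (algebraMap L M g1) (algebraMap L M g2) =
        algebraMap L M (SF.N3 (algebraMap E L a) g0 g1 g2) := by
      unfold SF.N3
      simp only [map_add, map_sub, map_mul, map_pow, map_ofNat]
    rw [h4, h5, hg, ← m.compat] at h3
    have h6 : algebraMap Ω M (algebraMap E Ω (algebraMap (LaurentSeries k) E (HahnSeries.C x))) = algebraMap k M x := by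
      change _ = algebraMap Ω M (algebraMap E Ω (algebraMap (RR k) E (algebraMap k (RR k) x)))
      rfl
    rw [h6] at h3
    rw [← h3]
    change SF.cj α g0 g1 g2 * _ * _ = _
    unfold SF.cj
    simp only [map_mul, map_pow]
  obtain ⟨E', i1, i2, h1, h2, ⟨φ⟩⟩ := transfer z x hk hE (by rw [← hy] at hnc ⊢; exact hnc) N hN T0 hT0 hT0N θ hθN ω hω3 ζk hζk hθω g T1 hT1
    hgT hgg (s.image (algebraMap L M)) (by
      intro t ht
      simp only [Finset.mem_image] at ht
      obtain ⟨l, -, rfl⟩ := ht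
      exact hNmem l)
  refine ⟨E', i1, i2, h1, ?_, ?_⟩
  · rw [hθg] at h2; exact h2
  · exact hom_transport' ιL (s : Set L) _ (by
      rintro _ ⟨l, hl, rfl⟩
      simp only [Finset.coe_image]
      exact ⟨l, hl, rfl⟩) φ

end FFT
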