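import Pool.Agent.Helper386.LOC.E
import Pool.Agent.Helper740.D5.Top3
import Pool.Agent.Helper399.ModKE

/-! The local theorem in the form needed for the assembly. -/

set_option autoImplicit false
set_option linter.all false

open Module FF

namespace FFT

theorem locStmt : Pool.Agent.Helper740.C3.LOCStmt := by
  intro k _ _ z x hk E _ _ _ hE Ω L M _ _ _ _ _ _ _ _ _ _ _ _ m a ha α hα ζ hζ g0 g1 g2 hg s
  exact FFT.LOC k z x hk E hE hE.not_cube Ω L M m a ha α hα ζ hζ g0 g1 g2 hg s

end FFT
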