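import Pool.Agent.Helper386.LOC.A
import Pool.Agent.Helper379.LOC.LinDisj
import Pool.Agent.Helper51.LOC.HJ
import Pool.Agent.Helper399.LOC.T34
import Pool.Agent.Helper18.LOC.T5
import Pool.Agent.Helper807.LOC.A1
import Pool.Agent.Helper807.LOC.A3
import Pool.Agent.Helper807.LOC.A6

set_option autoImplicit false

namespace FFT

theorem three_dvd_mul (n i : ℕ) : 3 ^ (padicValNat 3 n + i) ∣ n * 3 ^ i := by
  have := dvd_of_three' n i 1
  rwa [mul_one] at this

end FFT
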